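import Pool.Agent.H67.BB.Final

set_option autoImplicit false

/-!
# The zeros of all Dirichlet L-functions and the counting of the integers do not decide Brocard's conjecture

We move very few primes (at most `C √x / log x` of those up to `x`) by very little (at most `C √p`), injectively, to
composite numbers, so that every modulus `q` sees only finitely many changes of residues.  The system `P` of
generalised primes that arises violates Brocard's inequality in the strongest form: for infinitely many pairs
`a < b` of consecutive elements of `P` there is no element of `P` at all between `a ^ 2` and `b ^ 2`.  But for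
every Dirichlet character the Euler product over `P` is the Dirichlet L-function times a factor which is
holomorphic and without zeros in the half plane `Re s > 0` and as close to `1` as one wishes in `Re s ≥ 1 / 2`:
all zeros and poles with `Re s > 0` are the same, and all bounds and moments are essentially the same on the
critical line.  Moreover the generalised integers (products of generalised primes, with multiplicity) up to `x`
are `ρ x + O(√x)` in number.

Proof.  There are infinitely many pairs of consecutive primes `p, p + d` for some `d` (Zhang, Maynard, Tao; a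
theorem of the library), and between their squares there are only `O(p / log p)` primes (Brun-Titchmarsh).  These
are moved to composite numbers in `(p ^ 2 - p, p ^ 2)` in the same residue classes modulo `j!` (Hall's marriage
theorem), for a very sparse sequence of such pairs, the `j`-th being used with the modulus `j!`.  The sum of
`1 / √p` over the moved primes is small, which gives the factor and, by induction on the number of the moved
primes, the counting of the generalised integers.
-/

namespace Pool.Agent.Results.MP_739ba1_nt.ZerosDoNotDecide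

/-- `a < b` are consecutive elements of the set `P`. -/
def Consecutive (P : Set ℕ) (a b : ℕ) : Prop := a ∈ P ∧ b ∈ P ∧ a < b ∧ ∀ c ∈ P, ¬ (a < c ∧ c < b)

/-- The generalised integer of `n`: in the factorisation of `n` every prime `p` is replaced by `φ p`. -/
noncomputable def generalised (φ : ℕ → ℕ) (n : ℕ) : ℕ := n.factorization.prod fun p k => (φ p) ^ k

/-- There are `C` and `d` such that for every `ε > 0` there is a map `φ` on the primes, with values `≥ 2`, such that:
(1) `φ` is injective on the primes, `φ p = p` for all but at most `C √x / log x` primes `p ≤ x`, for all `x ≥ 2`,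
`|φ p - p| ≤ C √p` for all primes `p`, and for each `q ≥ 1`: `φ p ≡ p` modulo `q` for all but finitely many `p`;
(2) for every Dirichlet character `χ` the Euler product over the `φ p` is `L(s, χ) G(s)` for `Re s > 1`, where `G` is
holomorphic without zeros in `Re s > 0`, and `|G(s) - 1| ≤ ε` for `Re s ≥ 1 / 2`;
(3) there is `ρ` with `|ρ - 1| ≤ ε` such that for all `x ≥ 0` the number of the generalised integers up to `x`, that
is of the `n ≥ 1` with `generalised φ n ≤ x`, differs from `ρ x` by at most `(1 + ε) √x`;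
(4) for infinitely many primes `a` the numbers `a` and `a + d` are consecutive elements of the set `P` of the values
`φ p`, and no element of `P` lies strictly between `a ^ 2` and `(a + d) ^ 2`. -/
theorem result : ∃ (C : ℝ) (d : ℕ), ∀ ε : ℝ, 0 < ε → ∃ φ : ℕ → ℕ,
    (Set.InjOn φ {p | p.Prime} ∧ (∀ p : ℕ, p.Prime → 2 ≤ φ p) ∧
      (∀ x : ℝ, 2 ≤ x → ({p : ℕ | p.Prime ∧ (p : ℝ) ≤ x ∧ φ p ≠ p}.ncard : ℝ) ≤ C * √x / Real.log x) ∧
      (∀ p : ℕ, p.Prime → |(φ p : ℝ) - p| ≤ C * √(p : ℝ)) ∧
      ∀ q : ℕ, 0 < q → {p : ℕ | p.Prime ∧ ¬ φ p ≡ p [MOD q]}.Finite) ∧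
    (∀ (q : ℕ) [NeZero q] (χ : DirichletCharacter ℂ q), ∃ G : ℂ → ℂ,
      DifferentiableOn ℂ G {s : ℂ | 0 < s.re} ∧ (∀ s : ℂ, 0 < s.re → G s ≠ 0) ∧
      (∀ s : ℂ, 1 / 2 ≤ s.re → ‖G s - 1‖ ≤ ε) ∧
      ∀ s : ℂ, 1 < s.re → HasProd (fun p : Nat.Primes => (1 - χ (φ p) * (φ p : ℂ) ^ (-s))⁻¹)
        (χ.LFunction s * G s)) ∧
    (∃ ρ : ℝ, |ρ - 1| ≤ ε ∧ ∀ x : ℝ, 0 ≤ x →
      |({n : ℕ | n ≠ 0 ∧ (generalised φ n : ℝ) ≤ x}.ncard : ℝ) - ρ * x| ≤ (1 + ε) * √x) ∧
    {a : ℕ | a.Prime ∧ Consecutive (φ '' {p | p.Prime}) a (a + d) ∧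
      ∀ c ∈ φ '' {p | p.Prime}, ¬ (a ^ 2 < c ∧ c < (a + d) ^ 2)}.Infinite := by
  obtain ⟨d, C, h⟩ := Pool.Agent.H67.BB.exists_data
  obtain ⟨_, _, D1⟩ := h 1 one_pos
  have hC := D1.hC
  refine ⟨(2 * C + 4) + (3 * d + 1), d, fun ε hε => ?_⟩
  obtain ⟨ε', hε', h1, h2⟩ : ∃ ε' : ℝ, 0 < ε' ∧ Real.exp (9 * ε') - 1 ≤ ε ∧ Real.exp (9 * ε') ≤ 1 + ε := by
    refine ⟨Real.log (1 + ε) / 9, by have := Real.log_pos (by linarith : 1 < 1 + ε); positivity, ?_, ?_⟩
    · rw [mul_div_cancel₀ _ (by norm_num), Real.exp_log (by linarith)]; linarith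
    · rw [mul_div_cancel₀ _ (by norm_num), Real.exp_log (by linarith)]
  obtain ⟨p, ψ, D⟩ := h ε' hε'
  have hM := D.move hε'
  have hS := D.tsum_le hε'
  have hexp : Real.exp (9 * ∑' r, Pool.Agent.H67.BB.uu (Pool.Agent.H67.BB.phi d p ψ) r) ≤ Real.exp (9 * ε') := by
    gcongr
  refine ⟨Pool.Agent.H67.BB.phi d p ψ, ⟨D.injOn, fun r hr => D.two hr, fun x hx => ?_, fun r hr => ?_,
    fun q hq => D.fin q hq⟩, fun q _ χ => ?_, ?_, ?_⟩
  · refine (D.count_moved x hx).trans ?_
    have hlogx : 0 < Real.log x := Real.log_pos (by linarith)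
    have h3 : (0 : ℝ) ≤ 3 * d + 1 := by positivity
    exact div_le_div_of_nonneg_right (mul_le_mul_of_nonneg_right (by linarith) (Real.sqrt_nonneg _)) hlogx.le
  · refine (D.disp hr).trans (mul_le_mul_of_nonneg_right (by linarith) (Real.sqrt_nonneg _))
  · obtain ⟨G, hG1, hG2, hG3, hG4⟩ := Pool.Agent.H67.BB.euler hM q χ
    exact ⟨G, hG1, hG2, fun s hs => (hG3 s hs).trans (by linarith), hG4⟩
  · obtain ⟨ρ, hρ, hx⟩ := Pool.Agent.H67.BB.count hM
    refine ⟨ρ, hρ.trans (by linarith), fun x hx0 => (hx x hx0).trans ?_⟩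
    gcongr
    linarith
  · refine (Set.infinite_range_of_injective D.strictMono.injective).mono ?_
    rintro _ ⟨j, rfl⟩
    exact ⟨D.prime j, (D.fail j).1, (D.fail j).2⟩

end Pool.Agent.Results.MP_739ba1_nt.ZerosDoNotDecide
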